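import Pool.Agent.Helper96.KS.Parts

/-!
# KS, part FIN: the final theorem from the estimates on the distance
-/

set_option autoImplicit false

open Finset

namespace KS.FIN_h49

open scoped Classical

open Inst

variable {K : ℕ}

theorem pr_le_one (I : Inst K) (E : (I.H → I.H) → Prop) : I.pr E ≤ 1 := by
  unfold Inst.pr
  apply div_le_one_of_le₀
  · exact_mod_cast Finset.card_le_card (Finset.filter_subset _ _)
  · exact Nat.cast_nonneg _

theorem pr_union (I : Inst K) (E E1 E2 : (I.H → I.H) → Prop)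
    (h : ∀ η ∈ I.Om, E η → E1 η ∨ E2 η) : I.pr E ≤ I.pr E1 + I.pr E2 := by
  unfold Inst.pr
  rw [← add_div]
  apply div_le_div_of_nonneg_right _ (Nat.cast_nonneg _)
  have h1 : (I.Om.filter E) ⊆ (I.Om.filter E1) ∪ (I.Om.filter E2) := by
    intro η hη
    rw [Finset.mem_filter] at hη
    rw [Finset.mem_union, Finset.mem_filter, Finset.mem_filter]
    rcases h η hη.1 hη.2 with h' | h'
    · exact Or.inl ⟨hη.1, h'⟩
    · exact Or.inr ⟨hη.1, h'⟩
  have h2 := (Finset.card_le_card h1).trans (Finset.card_union_le _ _)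
  exact_mod_cast h2

theorem pr_compl (I : Inst K) (hne : I.Om.Nonempty) (E : (I.H → I.H) → Prop) :
    I.pr E = 1 - I.pr (fun η => ¬ E η) := by
  unfold Inst.pr
  have h0 : (I.Om.card : ℝ) ≠ 0 := by
    have := Finset.card_pos.2 hne
    exact_mod_cast this.ne'
  rw [eq_sub_iff_add_eq, ← add_div, div_eq_one_iff_eq h0, ← Nat.cast_add]
  congr 1
  convert Finset.card_filter_add_card_filter_not (s := I.Om) E

theorem D_anti {Δ : ℕ} (hR : S_REV) (I : Inst K) (hI : I.Valid Δ) (η : I.H → I.H)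
    (hη : η ∈ I.Om) {s t : ℕ} (h : s ≤ t) : I.D η t ≤ I.D η s := by
  obtain ⟨m, rfl⟩ := Nat.exists_eq_add_of_le h
  unfold Inst.D
  exact ciSup_mono (Set.finite_range _).bddAbove
    (fun x => (hR K Δ I hI η hη).2.2.2.2.2.2.1 s m x)

/-- existence of the mixing time -/
theorem exists_tmix (I : Inst K) (η : I.H → I.H) (ep : ℝ) (t : ℕ) (h : I.D η t < ep) :
    ∃ m, I.IsTmix η ep m ∧ m ≤ t := by
  have hex : ∃ t, I.D η t < ep := ⟨t, h⟩
  refine ⟨Nat.find hex, ⟨Nat.find_spec hex, fun s hs => Nat.find_min' hex hs⟩,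
    Nat.find_min' hex h⟩

theorem tmix_lt {Δ : ℕ} (hR : S_REV) (I : Inst K) (hI : I.Valid Δ) (η : I.H → I.H)
    (hη : η ∈ I.Om) (ep : ℝ) (t m : ℕ) (h : ¬ I.D η t < ep) (hm : I.IsTmix η ep m) : t < m := by
  by_contra hcon
  push Not at hcon
  exact h (lt_of_le_of_lt (D_anti hR I hI η hη hcon) hm.1)

theorem main (hAU1 : S_AU1) (hAU2 : S_AU2) (hAL1 : S_AL1) (hAL2 : S_AL2) (hR : S_REV)
    (hNE : S_NE) (hC1 : S_C1) : KS.S_FIN := by
  intro K Δ I hreg
  obtain ⟨s0, hs0, hsig⟩ := hreg.sig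
  have hK : 2 ≤ K := (hreg.valid 0).hK
  have hev : ∀ A N0 : ℝ, ∀ᶠ i in Filter.atTop, N0 ≤ (I i).N ∧
      A ≤ (I i).al * Real.log (I i).N ∧ s0 ≤ (I i).sig2 := by
    intro A N0
    filter_upwards [hreg.N.eventually_ge_atTop N0, hreg.al.eventually_ge_atTop A, hsig]
      with i h1 h2 h3
    exact ⟨h1, h2, h3⟩
  -- the window tends to infinity
  have hw : ∀ M : ℝ, 0 ≤ M → ∀ᶠ i in Filter.atTop, M ≤ (I i).w := by
    intro M hM
    set R : ℝ := M ^ 2 * (Real.log Δ) ^ 3 / s0 with hRdef
    filter_upwards [hev 1 (max 3 (Real.exp R))] with i hi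
    obtain ⟨h1, h2, h3⟩ := hi
    have hN3 : (3 : ℝ) ≤ (I i).N := (le_max_left _ _).trans h1
    have hNR : Real.exp R ≤ (I i).N := (le_max_right _ _).trans h1
    have hlog : 0 < Real.log (I i).N := Real.log_pos (by linarith)
    have hal : 0 < (I i).al := by
      by_contra hcon
      push Not at hcon
      nlinarith
    obtain ⟨-, hnu, hmu1, hmu2, -⟩ := hC1 K Δ (I i) (hreg.valid i) hal
    have hmu : 0 < (I i).mu := lt_of_lt_of_le (Real.log_pos (by norm_num)) hmu1
    have hR' : R ≤ Real.log (I i).N := by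
      rw [Real.le_log_iff_exp_le (by linarith)]
      exact hNR
    have hΔ : 0 < Real.log Δ := lt_of_lt_of_le hmu hmu2
    unfold Inst.w
    apply Real.le_sqrt_of_sq_le
    have h4 : s0 / (Real.log Δ) ^ 3 ≤ (I i).nu2 / (I i).mu ^ 3 := by
      apply div_le_div₀ (by linarith) (h3.trans hnu) (by positivity)
      exact pow_le_pow_left₀ hmu.le hmu2 3
    calc M ^ 2 = s0 / (Real.log Δ) ^ 3 * R := by
          rw [hRdef]
          field_simp
      _ ≤ s0 / (Real.log Δ) ^ 3 * Real.log (I i).N :=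
          mul_le_mul_of_nonneg_left hR' (by positivity)
      _ ≤ _ := mul_le_mul_of_nonneg_right h4 hlog.le
  constructor
  · intro ep hep hep1 de hde
    obtain ⟨C1, hC1p, h1⟩ := hAU1 K Δ s0 ep hK hs0 hep
    obtain ⟨C2, hC2p, h2⟩ := hAL1 K Δ s0 ep hK hs0 hep hep1
    obtain ⟨A1, N1, h1⟩ := h1 (de / 2) (by linarith)
    obtain ⟨A2, N2, h2⟩ := h2 (de / 2) (by linarith)
    refine ⟨C1 + C2 + 1, ?_⟩
    filter_upwards [hev A1 N1, hev A2 N2, hw 1 (by norm_num)] with i hi1 hi2 hwi
    have e1 := h1 (I i) (hreg.valid i) hi1.1 hi1.2.1 hi1.2.2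
      ⌈Real.log (I i).N / (I i).mu + C1 * (I i).w⌉₊ (Nat.le_ceil _)
    have hw0 : 0 ≤ (I i).w := by linarith
    by_cases hpos : 0 ≤ Real.log (I i).N / (I i).mu - C2 * (I i).w
    · have e2 := h2 (I i) (hreg.valid i) hi2.1 hi2.2.1 hi2.2.2
        ⌊Real.log (I i).N / (I i).mu - C2 * (I i).w⌋₊ (Nat.floor_le hpos)
      have e3 := pr_union (I i) (fun η => ¬ ∃ m : ℕ, (I i).IsTmix η ep m ∧
        |(m : ℝ) - Real.log (I i).N / (I i).mu| ≤ (C1 + C2 + 1) * (I i).w)
        (fun η => ep ≤ (I i).D η ⌈Real.log (I i).N / (I i).mu + C1 * (I i).w⌉₊)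
        (fun η => (I i).D η ⌊Real.log (I i).N / (I i).mu - C2 * (I i).w⌋₊ < ep) ?_
      · linarith
      · intro η hη hno
        by_contra hcon
        push Not at hcon
        apply hno
        obtain ⟨hc1, hc2⟩ := hcon
        obtain ⟨m, hm, hmt⟩ := exists_tmix (I i) η ep _ hc1
        have hlt := tmix_lt hR (I i) (hreg.valid i) η hη ep _ m (not_lt.2 hc2) hm
        refine ⟨m, hm, ?_⟩
        have g1 : (m : ℝ) ≤ Real.log (I i).N / (I i).mu + C1 * (I i).w + 1 := by
          have g2 : (m : ℝ) ≤ (⌈Real.log (I i).N / (I i).mu + C1 * (I i).w⌉₊ : ℝ) := by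
            exact_mod_cast hmt
          have g3 := Nat.ceil_lt_add_one (a := Real.log (I i).N / (I i).mu + C1 * (I i).w)
            (by nlinarith)
          linarith
        have g4 : Real.log (I i).N / (I i).mu - C2 * (I i).w < (m : ℝ) := by
          have g5 := Nat.lt_floor_add_one (Real.log (I i).N / (I i).mu - C2 * (I i).w)
          have g6 : ((⌊Real.log (I i).N / (I i).mu - C2 * (I i).w⌋₊ : ℝ)) + 1 ≤ (m : ℝ) := by
            exact_mod_cast hlt
          linarith
        rw [abs_le]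
        constructor
        · nlinarith
        · nlinarith
    · push Not at hpos
      have e3 := pr_union (I i) (fun η => ¬ ∃ m : ℕ, (I i).IsTmix η ep m ∧
        |(m : ℝ) - Real.log (I i).N / (I i).mu| ≤ (C1 + C2 + 1) * (I i).w)
        (fun η => ep ≤ (I i).D η ⌈Real.log (I i).N / (I i).mu + C1 * (I i).w⌉₊)
        (fun η => ep ≤ (I i).D η ⌈Real.log (I i).N / (I i).mu + C1 * (I i).w⌉₊) ?_
      · linarith
      · intro η hη hno
        left
        by_contra hcon
        push Not at hcon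
        apply hno
        obtain ⟨m, hm, hmt⟩ := exists_tmix (I i) η ep _ hcon
        refine ⟨m, hm, ?_⟩
        have hm0 : (0 : ℝ) ≤ m := Nat.cast_nonneg m
        have g1 : (m : ℝ) ≤ max 0 (Real.log (I i).N / (I i).mu + C1 * (I i).w) + 1 := by
          have g2 : (m : ℝ) ≤ (⌈Real.log (I i).N / (I i).mu + C1 * (I i).w⌉₊ : ℝ) := by
            exact_mod_cast hmt
          rcases le_total 0 (Real.log (I i).N / (I i).mu + C1 * (I i).w) with h0 | h0
          · have g3 := Nat.ceil_lt_add_one h0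
            rw [max_eq_right h0]
            linarith
          · rw [Nat.ceil_eq_zero.2 h0] at g2
            rw [max_eq_left h0]
            simp at g2
            rw [g2]
            norm_num
        have hNpos : (1 : ℝ) ≤ (I i).N := by
          exact_mod_cast (hreg.valid i).npos
        have hl0 : 0 ≤ Real.log (I i).N := Real.log_nonneg hNpos
        have hmu0 : 0 ≤ (I i).mu := by
          unfold Inst.mu
          refine mul_nonneg (by positivity) (Finset.sum_nonneg fun x _ => ?_)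
          have h3 := (hreg.valid i).d3 x.1
          have : 1 ≤ (I i).dg x := by
            unfold Inst.dg
            omega
          exact Real.log_nonneg (by exact_mod_cast this)
        have hq0 : 0 ≤ Real.log (I i).N / (I i).mu := div_nonneg hl0 hmu0
        rw [max_eq_right (by nlinarith)] at g1
        rw [abs_le]
        constructor
        · nlinarith
        · nlinarith
  · obtain ⟨e2, he2, he21, h2⟩ := hAU2 K Δ s0 hK hs0
    obtain ⟨e1, he1, c1, hc1, he11, h1⟩ := hAL2 K Δ s0 hK hs0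
    set ep : ℝ := min e1 (e2 / 2) with hepdef
    have hep : 0 < ep := lt_min he1 (by linarith)
    have hepe1 : ep ≤ e1 := min_le_left _ _
    have hepe2 : ep < e2 := lt_of_le_of_lt (min_le_right _ _) (by linarith)
    obtain ⟨C, hC, h3⟩ := hAU1 K Δ s0 ep hK hs0 hep
    refine ⟨ep, e2, c1 / 2, hep, hepe2, he21, by linarith, ?_⟩
    -- the complement has small probability
    have hsmall : ∀ de : ℝ, 0 < de → ∀ᶠ i in Filter.atTop,
        (I i).pr (fun η => ¬ ∃ m m' : ℕ, (I i).IsTmix η ep m ∧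
          (I i).IsTmix η e2 m' ∧ c1 / 2 * (I i).w ≤ (m : ℝ) - m') ≤ de := by
      intro de hde
      obtain ⟨A1, N1, h1⟩ := h1 (de / 3) (by linarith)
      obtain ⟨A2, N2, h2⟩ := h2 (de / 3) (by linarith)
      obtain ⟨A3, N3, h3⟩ := h3 (de / 3) (by linarith)
      filter_upwards [hev A1 N1, hev A2 N2, hev A3 N3, hw (2 / c1 + 2) (by positivity)]
        with i hi1 hi2 hi3 hwi
      have hw0 : 0 ≤ (I i).w := le_trans (by positivity) hwi
      have hNpos : (1 : ℝ) ≤ (I i).N := by
        exact_mod_cast (hreg.valid i).npos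
      have hl0 : 0 ≤ Real.log (I i).N := Real.log_nonneg hNpos
      have hmu0 : 0 ≤ (I i).mu := by
        unfold Inst.mu
        refine mul_nonneg (by positivity) (Finset.sum_nonneg fun x _ => ?_)
        have h3 := (hreg.valid i).d3 x.1
        have : 1 ≤ (I i).dg x := by
          unfold Inst.dg
          omega
        exact Real.log_nonneg (by exact_mod_cast this)
      have hq0 : 0 ≤ Real.log (I i).N / (I i).mu := div_nonneg hl0 hmu0
      have f1 := h1 (I i) (hreg.valid i) hi1.1 hi1.2.1 hi1.2.2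
        ⌊Real.log (I i).N / (I i).mu + c1 * (I i).w⌋₊
        (Nat.floor_le (by nlinarith))
      have f2 := h2 (I i) (hreg.valid i) hi2.1 hi2.2.1 hi2.2.2
        ⌈Real.log (I i).N / (I i).mu⌉₊ (Nat.le_ceil _)
      have f3 := h3 (I i) (hreg.valid i) hi3.1 hi3.2.1 hi3.2.2
        ⌈Real.log (I i).N / (I i).mu + C * (I i).w⌉₊ (Nat.le_ceil _)
      have g1 := pr_union (I i) (fun η => ¬ ∃ m m' : ℕ, (I i).IsTmix η ep m ∧
          (I i).IsTmix η e2 m' ∧ c1 / 2 * (I i).w ≤ (m : ℝ) - m')
        (fun η => (I i).D η ⌊Real.log (I i).N / (I i).mu + c1 * (I i).w⌋₊ < e1)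
        (fun η => e2 ≤ (I i).D η ⌈Real.log (I i).N / (I i).mu⌉₊ ∨
          ep ≤ (I i).D η ⌈Real.log (I i).N / (I i).mu + C * (I i).w⌉₊) ?_
      · have g2 := pr_union (I i) (fun η => e2 ≤ (I i).D η ⌈Real.log (I i).N / (I i).mu⌉₊ ∨
          ep ≤ (I i).D η ⌈Real.log (I i).N / (I i).mu + C * (I i).w⌉₊)
          (fun η => e2 ≤ (I i).D η ⌈Real.log (I i).N / (I i).mu⌉₊)
          (fun η => ep ≤ (I i).D η ⌈Real.log (I i).N / (I i).mu + C * (I i).w⌉₊)
          (fun η _ h => h)
        linarith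
      · intro η hη hno
        by_contra hcon
        push Not at hcon
        obtain ⟨hc1', hc2', hc3'⟩ := hcon
        apply hno
        obtain ⟨m, hm, -⟩ := exists_tmix (I i) η ep _ hc3'
        obtain ⟨m', hm', hmt'⟩ := exists_tmix (I i) η e2 _ hc2'
        refine ⟨m, m', hm, hm', ?_⟩
        have hlt := tmix_lt hR (I i) (hreg.valid i) η hη ep _ m
          (not_lt.2 (hepe1.trans hc1')) hm
        have k1 := Nat.lt_floor_add_one (Real.log (I i).N / (I i).mu + c1 * (I i).w)
        have k2 : ((⌊Real.log (I i).N / (I i).mu + c1 * (I i).w⌋₊ : ℝ)) + 1 ≤ (m : ℝ) := by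
          exact_mod_cast hlt
        have k3 := Nat.ceil_lt_add_one hq0
        have k4 : (m' : ℝ) ≤ (⌈Real.log (I i).N / (I i).mu⌉₊ : ℝ) := by exact_mod_cast hmt'
        have k5 : 2 ≤ c1 * (I i).w := by
          calc (2 : ℝ) = c1 * (2 / c1) := by field_simp
            _ ≤ c1 * (I i).w := mul_le_mul_of_nonneg_left (by linarith) hc1.le
        linarith
    rw [tendsto_order]
    constructor
    · intro a ha
      filter_upwards [hsmall ((1 - a) / 2) (by linarith)] with i hi
      rw [pr_compl (I i) (hNE K Δ (I i) (hreg.valid i))]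
      linarith
    · intro a ha
      exact Filter.Eventually.of_forall fun i => lt_of_le_of_lt (pr_le_one _ _) ha

end KS.FIN_h49
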