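import Pool.Agent.Helper96.KS.Parts

/-!
# KS, part NE: existence of an admissible pairing
-/

set_option autoImplicit false

open Finset

namespace KS.NE_h49

open scoped Classical

open Inst

variable {K : ℕ}

/-- slots of a community -/
abbrev Sl (K p r : ℕ) (k : Fin K) : Type := ({l : Fin K // l ≠ k} × Fin p) ⊕ (Fin r × Bool)

/-- the pairing of the slots -/
def inv (K p r : ℕ) : (Σ k, Sl K p r k) → Σ k, Sl K p r k
  | ⟨k, Sum.inl (l, t)⟩ => ⟨l.1, Sum.inl (⟨k, l.2.symm⟩, t)⟩
  | ⟨k, Sum.inr (j, b)⟩ => ⟨k, Sum.inr (j, !b)⟩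

theorem inv_inv (K p r : ℕ) (z : Σ k, Sl K p r k) : inv K p r (inv K p r z) = z := by
  rcases z with ⟨k, ⟨l, t⟩ | ⟨j, b⟩⟩
  · rfl
  · simp [inv]

theorem inv_ne (K p r : ℕ) (z : Σ k, Sl K p r k) : inv K p r z ≠ z := by
  rcases z with ⟨k, ⟨l, t⟩ | ⟨j, b⟩⟩
  · intro h
    have := congrArg Sigma.fst h
    exact l.2 this
  · intro h
    simp [inv] at h

theorem card_inv (K p r : ℕ) (k l : Fin K) (h : k ≠ l) :
    (univ.filter fun z : Σ k, Sl K p r k => z.1 = k ∧ (inv K p r z).1 = l).card = p := by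
  have e : (univ.filter fun z : Σ k, Sl K p r k => z.1 = k ∧ (inv K p r z).1 = l) =
      (univ : Finset (Fin p)).map ⟨fun t => (⟨k, Sum.inl (⟨l, h.symm⟩, t)⟩ : Σ k, Sl K p r k),
        fun t t' htt => by simpa using htt⟩ := by
    ext z
    simp only [mem_filter, mem_univ, true_and, mem_map, Function.Embedding.coeFn_mk]
    constructor
    · rcases z with ⟨k', ⟨l', t⟩ | ⟨j, b⟩⟩
      · rintro ⟨h1, h2⟩
        have h1' : k' = k := h1
        subst h1'
        have h2' : l'.1 = l := h2
        refine ⟨t, ?_⟩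
        have : l' = ⟨l, h.symm⟩ := Subtype.ext h2'
        rw [this]
      · rintro ⟨h1, h2⟩
        have h1' : k' = k := h1
        have h2' : k' = l := h2
        exact absurd (h1'.symm.trans h2') h
    · rintro ⟨t, rfl⟩
      exact ⟨rfl, rfl⟩
  rw [e, card_map, card_univ, Fintype.card_fin]

theorem main : KS.S_NE := by
  intro K Δ I hI
  have hK := hI.hK
  -- common size
  have hM : ∀ k : Fin K, ∃ r : ℕ, (I.Hk k).card = (K - 1) * I.p + 2 * r := by
    intro k
    obtain ⟨r, hr⟩ := hI.even k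
    refine ⟨r, ?_⟩
    have := hI.blocks k
    omega
  let k0 : Fin K := ⟨0, by omega⟩
  obtain ⟨r, hr⟩ := hM k0
  have hr' : ∀ k : Fin K, (I.Hk k).card = (K - 1) * I.p + 2 * r := by
    intro k
    rw [← hr]
    have h1 := hI.bal k
    have h2 := hI.bal k0
    exact Nat.eq_of_mul_eq_mul_left (by omega) (h1.trans h2.symm)
  have hcard : ∀ k : Fin K, Fintype.card {x : I.H // I.c x = k} =
      Fintype.card (Sl K I.p r k) := by
    intro k
    have h1 : Fintype.card {x : I.H // I.c x = k} = (I.Hk k).card := by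
      rw [Fintype.card_subtype]
      rfl
    rw [h1, hr' k]
    simp only [Sl, Fintype.card_sum, Fintype.card_prod, Fintype.card_fin, Fintype.card_bool]
    have h2 : Fintype.card {l : Fin K // l ≠ k} = K - 1 := by
      rw [Fintype.card_subtype_compl (fun l => l = k), Fintype.card_fin]
      simp
    rw [h2]
    ring
  let σ : ∀ k : Fin K, {x : I.H // I.c x = k} ≃ Sl K I.p r k :=
    fun k => Fintype.equivOfCardEq (hcard k)
  let e : I.H ≃ Σ k, Sl K I.p r k :=
    (Equiv.sigmaFiberEquiv (fun x : I.H => I.c x)).symm.trans (Equiv.sigmaCongrRight σ)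
  have he : ∀ x, (e x).1 = I.c x := fun x => rfl
  have he' : ∀ z, I.c (e.symm z) = z.1 := by
    intro z
    rw [← he, e.apply_symm_apply]
  refine ⟨fun x => e.symm (inv K I.p r (e x)), ?_⟩
  unfold Inst.Om
  rw [Finset.mem_filter]
  refine ⟨Finset.mem_univ _, fun x => ?_, fun x h => ?_, fun k l hkl => ?_⟩
  · beta_reduce
    rw [e.apply_symm_apply, inv_inv, e.symm_apply_apply]
  · have h1 := congrArg e h
    rw [e.apply_symm_apply] at h1
    exact inv_ne _ _ _ _ h1
  · refine Eq.trans ?_ (card_inv K I.p r k l hkl)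
    refine Finset.card_bij (fun x _ => e x) ?_ ?_ ?_
    · intro x hx
      simp only [mem_filter, mem_univ, true_and] at hx ⊢
      refine ⟨by rw [he]; exact hx.1, ?_⟩
      rw [← he']
      exact hx.2
    · intro x _ y _ hxy
      exact e.injective hxy
    · intro z hz
      simp only [mem_filter, mem_univ, true_and] at hz
      refine ⟨e.symm z, ?_, e.apply_symm_apply z⟩
      simp only [mem_filter, mem_univ, true_and]
      refine ⟨by rw [he']; exact hz.1, ?_⟩
      rw [he', e.apply_symm_apply]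
      exact hz.2

end KS.NE_h49
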