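import Pool.Agent.Helper96.KS.Parts

/-!
# KS, part REV: reversal, double stochasticity, contraction of the distance
-/

set_option autoImplicit false

open Finset

namespace KS.REV_h49

open scoped Classical

open Inst

variable {K : ℕ}

theorem om_spec (I : Inst K) {η : I.H → I.H} (hη : η ∈ I.Om) :
    (∀ x, η (η x) = x) ∧ ∀ x, η x ≠ x := by
  unfold Inst.Om at hη
  rw [Finset.mem_filter] at hη
  exact ⟨hη.2.1, hη.2.2.1⟩

theorem P_nonneg (I : Inst K) (η : I.H → I.H) (a b : I.H) : 0 ≤ I.P η a b := by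
  unfold Inst.P
  split_ifs
  · positivity
  · exact le_rfl

theorem P_rev (I : Inst K) {η : I.H → I.H} (h1 : ∀ x, η (η x) = x) (a b : I.H) :
    I.P η a b = I.P η (η b) (η a) := by
  unfold Inst.P
  rw [h1 b]
  by_cases h : b.1 = (η a).1 ∧ b ≠ η a
  · rw [if_pos h, if_pos ⟨h.1.symm, fun h' => h.2 h'.symm⟩]
    unfold Inst.dg
    rw [h.1]
  · rw [if_neg h, if_neg]
    rintro ⟨h3, h4⟩
    exact h ⟨h3.symm, fun h' => h4 h'.symm⟩

/-- number of half-edges at a vertex -/
theorem card_vertex (I : Inst K) (v : Fin I.n) :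
    (univ.filter fun b : I.H => b.1 = v).card = I.d v := by
  have h : (univ.filter fun b : I.H => b.1 = v) =
      (univ : Finset (Fin (I.d v))).map ⟨fun j => (⟨v, j⟩ : I.H), fun i j hij => by
        simpa using hij⟩ := by
    ext ⟨w, j⟩
    simp only [mem_filter, mem_univ, true_and, mem_map, Function.Embedding.coeFn_mk]
    constructor
    · rintro rfl
      exact ⟨j, rfl⟩
    · rintro ⟨i, hi⟩
      exact (congrArg Sigma.fst hi).symm
  rw [h, card_map, card_univ, Fintype.card_fin]

theorem P_row {Δ : ℕ} (I : Inst K) (hI : I.Valid Δ) (η : I.H → I.H) (a : I.H) :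
    ∑ b, I.P η a b = 1 := by
  have h3 := hI.d3 (η a).1
  unfold Inst.P
  rw [← Finset.sum_filter, Finset.sum_const, nsmul_eq_mul]
  have hc : (univ.filter fun b : I.H => b.1 = (η a).1 ∧ b ≠ η a).card = I.dg (η a) := by
    have h : (univ.filter fun b : I.H => b.1 = (η a).1 ∧ b ≠ η a) =
        (univ.filter fun b : I.H => b.1 = (η a).1).erase (η a) := by
      ext b
      simp only [mem_filter, mem_univ, true_and, mem_erase]
      tauto
    rw [h, card_erase_of_mem (by simp), card_vertex]
    rfl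
  rw [hc]
  have : (I.dg (η a) : ℝ) ≠ 0 := by
    have : I.dg (η a) ≠ 0 := by
      unfold Inst.dg
      omega
    exact_mod_cast this
  field_simp

theorem main : KS.S_REV := by
  intro K Δ I hI η hη
  obtain ⟨h1, h2⟩ := om_spec I hη
  have hbij : Function.Bijective η := ⟨fun a b hab => by rw [← h1 a, hab, h1], fun a => ⟨η a, h1 a⟩⟩
  set e : I.H ≃ I.H := Equiv.ofBijective η hbij with he
  have hsum : ∀ f : I.H → ℝ, ∑ y, f (η y) = ∑ y, f y := fun f => e.sum_comp f
  have hrev : ∀ n a b, ((I.P η) ^ n) a b = ((I.P η) ^ n) (η b) (η a) := by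
    intro n
    induction n with
    | zero =>
      intro a b
      rw [pow_zero, Matrix.one_apply, Matrix.one_apply]
      by_cases h : a = b
      · rw [if_pos h, if_pos (by rw [h])]
      · rw [if_neg h, if_neg (fun h' => h (hbij.1 h').symm)]
    | succ n ih =>
      intro a b
      have e1 : ((I.P η) ^ (n + 1)) a b = ∑ c, ((I.P η) ^ n) a c * I.P η c b := by
        rw [pow_succ, Matrix.mul_apply]
      have e2 : ((I.P η) ^ (n + 1)) (η b) (η a) =
          ∑ c, I.P η (η b) c * ((I.P η) ^ n) c (η a) := by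
        rw [pow_succ', Matrix.mul_apply]
      rw [e1, e2, ← hsum (fun c => I.P η (η b) c * ((I.P η) ^ n) c (η a))]
      refine Finset.sum_congr rfl fun c _ => ?_
      rw [ih a c, P_rev I h1 c b, mul_comm]
  have hnn : ∀ n a b, 0 ≤ ((I.P η) ^ n) a b := by
    intro n
    induction n with
    | zero =>
      intro a b
      rw [pow_zero, Matrix.one_apply]
      split_ifs <;> norm_num
    | succ n ih =>
      intro a b
      rw [pow_succ, Matrix.mul_apply]
      exact Finset.sum_nonneg fun c _ => mul_nonneg (ih a c) (P_nonneg I η c b)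
  have hrow : ∀ n a, ∑ b, ((I.P η) ^ n) a b = 1 := by
    intro n
    induction n with
    | zero =>
      intro a
      simp [Matrix.one_apply]
    | succ n ih =>
      intro a
      simp_rw [pow_succ, Matrix.mul_apply]
      rw [Finset.sum_comm]
      simp_rw [← Finset.mul_sum, P_row I hI η, mul_one]
      exact ih a
  have hcol : ∀ n b, ∑ a, ((I.P η) ^ n) a b = 1 := by
    intro n b
    simp_rw [hrev n _ b]
    rw [hsum (fun a => ((I.P η) ^ n) (η b) a)]
    exact hrow n _
  have hN : (0 : ℝ) < (I.N : ℝ) := by exact_mod_cast hI.npos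
  have hsN : ∑ _y : I.H, 1 / (I.N : ℝ) = 1 := by
    rw [Finset.sum_const, nsmul_eq_mul, Finset.card_univ]
    have : (Fintype.card I.H : ℝ) = (I.N : ℝ) := rfl
    rw [this]
    field_simp
  refine ⟨hrev, hnn, hrow, hcol, ?_, ?_, ?_, ?_, ?_⟩
  · intro t x
    refine ⟨Finset.sum_nonneg fun y _ => le_max_right _ _, ?_⟩
    unfold Inst.Dx
    refine le_trans (Finset.sum_le_sum fun y _ => max_le ?_ (by positivity)) hsN.le
    linarith [hnn t x y]
  · intro t m x
    unfold Inst.Dx
    simp_rw [Finset.mul_sum]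
    rw [Finset.sum_comm]
    refine Finset.sum_le_sum fun y _ => ?_
    refine max_le ?_ (Finset.sum_nonneg fun z _ => mul_nonneg (hnn m x z) (le_max_right _ _))
    rw [add_comm t m, pow_add, Matrix.mul_apply]
    have h3 : 1 / (I.N : ℝ) = ∑ z, ((I.P η) ^ m) x z * (1 / (I.N : ℝ)) := by
      rw [← Finset.sum_mul, hrow, one_mul]
    conv_lhs => rw [h3]
    rw [← Finset.sum_sub_distrib]
    refine Finset.sum_le_sum fun z _ => ?_
    rw [← mul_sub]
    exact mul_le_mul_of_nonneg_left (le_max_left _ _) (hnn m x z)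
  · intro t m x
    unfold Inst.Dx
    have h4 : ∀ y, max (1 / (I.N : ℝ) - ((I.P η) ^ (t + m)) x y) 0 ≤
        ∑ z, max (1 / (I.N : ℝ) - ((I.P η) ^ t) x z) 0 * ((I.P η) ^ m) z y := by
      intro y
      refine max_le ?_ (Finset.sum_nonneg fun z _ => mul_nonneg (le_max_right _ _) (hnn m z y))
      rw [pow_add, Matrix.mul_apply]
      have h3 : 1 / (I.N : ℝ) = ∑ z, (1 / (I.N : ℝ)) * ((I.P η) ^ m) z y := by
        rw [← Finset.mul_sum, hcol, mul_one]
      conv_lhs => rw [h3]
      rw [← Finset.sum_sub_distrib]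
      refine Finset.sum_le_sum fun z _ => ?_
      rw [← sub_mul]
      exact mul_le_mul_of_nonneg_right (le_max_left _ _) (hnn m z y)
    refine (Finset.sum_le_sum fun y _ => h4 y).trans (le_of_eq ?_)
    rw [Finset.sum_comm]
    refine Finset.sum_congr rfl fun z _ => ?_
    rw [← Finset.mul_sum, hrow, mul_one]
  · intro t x
    unfold Inst.Dx
    exact (hsum (fun y => max (1 / (I.N : ℝ) - ((I.P η) ^ t) x y) 0)).symm
  · intro t x
    unfold Inst.Dx
    have h3 : ∑ y, (1 / (I.N : ℝ) - ((I.P η) ^ t) x y) = 0 := by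
      rw [Finset.sum_sub_distrib, hsN, hrow, sub_self]
    have h4 : ∀ y, max (1 / (I.N : ℝ) - ((I.P η) ^ t) x y) 0 =
        max (((I.P η) ^ t) x y - 1 / (I.N : ℝ)) 0 + (1 / (I.N : ℝ) - ((I.P η) ^ t) x y) := by
      intro y
      rcases le_total (1 / (I.N : ℝ)) (((I.P η) ^ t) x y) with h | h
      · rw [max_eq_right (by linarith), max_eq_left (by linarith)]
        ring
      · rw [max_eq_left (by linarith), max_eq_right (by linarith)]
        ring
    simp_rw [h4]
    rw [Finset.sum_add_distrib, h3, add_zero]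

end KS.REV_h49
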