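import Pool.Agent.Helper96.KS.Parts
import Pool.Agent.Helper49.KS.REV

/-!
# KS, part SK: the explored part of the walk is below the walk
-/

set_option autoImplicit false

open Finset

namespace KS.SK_h49

open scoped Classical

open Inst

variable {K : ℕ}

theorem pick_spec {I : Inst K} {s : ℕ} {om : ℝ} {S : I.St} {u : I.H}
    (h : pick s om S = some u) : u ∈ S.L ∧ S.dep u < s ∧ om ≤ S.wt u := by
  unfold pick at h
  split_ifs at h with h1
  have h2 := Classical.choose_spec (Finset.exists_min_image (procs s om S) S.dep h1)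
  rw [Option.some.injEq] at h
  rw [h] at h2
  have h3 := h2.1
  unfold procs at h3
  rw [Finset.mem_filter] at h3
  exact ⟨h3.1, h3.2.1, h3.2.2⟩

/-- the value of a state -/
noncomputable def val (I : Inst K) (s : ℕ) (η : I.H → I.H) (f : I.H → ℝ) (S : I.St) : ℝ :=
  ∑ a ∈ S.L, S.wt a * ∑ y, ((I.P η) ^ (s - S.dep a)) a y * f y

theorem pow_step (I : Inst K) (η : I.H → I.H) (f : I.H → ℝ) (m : ℕ) (u : I.H) :
    ∑ y, ((I.P η) ^ (m + 1)) u y * f y =
      ∑ h ∈ I.ch (η u), (1 / (I.dg (η u) : ℝ)) * ∑ y, ((I.P η) ^ m) h y * f y := by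
  have e1 : ∀ y, ((I.P η) ^ (m + 1)) u y = ∑ c, I.P η u c * ((I.P η) ^ m) c y := by
    intro y
    rw [pow_succ', Matrix.mul_apply]
  simp_rw [e1, Finset.sum_mul, mul_assoc]
  rw [Finset.sum_comm]
  unfold Inst.ch
  rw [Finset.sum_filter]
  refine Finset.sum_congr rfl fun c _ => ?_
  rw [← Finset.mul_sum]
  unfold Inst.P
  split_ifs with h
  · rfl
  · rw [zero_mul]

theorem val_stp {Δ : ℕ} (I : Inst K) (hI : I.Valid Δ) (s : ℕ) (om : ℝ) (η : I.H → I.H)
    (hη : η ∈ I.Om) (f : I.H → ℝ) (hf : ∀ y, 0 ≤ f y) (S : I.St) (hw : ∀ a, 0 ≤ S.wt a) :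
    (∀ a, 0 ≤ (stp s om η S).wt a) ∧ val I s η f (stp s om η S) ≤ val I s η f S := by
  unfold stp
  rcases hp : pick s om S with _ | u
  · exact ⟨hw, le_rfl⟩
  · obtain ⟨hu, hd, _⟩ := pick_spec hp
    have hnn : ∀ n a, 0 ≤ ∑ y, ((I.P η) ^ n) a y * f y := fun n a =>
      Finset.sum_nonneg fun y _ => mul_nonneg ((REV_h49.main K Δ I hI η hη).2.1 n a y) (hf y)
    show (∀ a, 0 ≤ (nxt S u (η u)).wt a) ∧ val I s η f (nxt S u (η u)) ≤ val I s η f S
    by_cases hF : Fresh S (η u)
    · have hwt : (nxt S u (η u)).wt = fun h => if h ∈ I.ch (η u) then S.wt u / I.dg (η u)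
          else S.wt h := by
        unfold nxt
        rw [if_pos hF]
      have hL : (nxt S u (η u)).L = (S.L.erase u) ∪ I.ch (η u) := by
        unfold nxt
        rw [if_pos hF]
      have hdep : (nxt S u (η u)).dep = fun h => if h ∈ I.ch (η u) then S.dep u + 1
          else S.dep h := by
        unfold nxt
        rw [if_pos hF]
      constructor
      · intro a
        rw [hwt]
        beta_reduce
        split_ifs
        · exact div_nonneg (hw u) (Nat.cast_nonneg _)
        · exact hw a
      · unfold val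
        rw [hL, hwt, hdep]
        have hch : ∀ h ∈ I.ch (η u), h ∉ S.L := by
          intro h hh
          unfold Inst.ch at hh
          rw [Finset.mem_filter] at hh
          exact (hF h hh.2.1).2.1
        have hdis : Disjoint (S.L.erase u) (I.ch (η u)) := by
          rw [Finset.disjoint_left]
          intro a ha ha'
          exact hch a ha' (Finset.mem_of_mem_erase ha)
        rw [Finset.sum_union hdis]
        have e1 : ∑ a ∈ S.L.erase u, (if a ∈ I.ch (η u) then S.wt u / (I.dg (η u) : ℝ)
            else S.wt a) * ∑ y, ((I.P η) ^ (s - (if a ∈ I.ch (η u) then S.dep u + 1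
            else S.dep a))) a y * f y =
            ∑ a ∈ S.L.erase u, S.wt a * ∑ y, ((I.P η) ^ (s - S.dep a)) a y * f y := by
          refine Finset.sum_congr rfl fun a ha => ?_
          have ha' : a ∉ I.ch (η u) := fun h => hch a h (Finset.mem_of_mem_erase ha)
          rw [if_neg ha', if_neg ha']
        have e2 : ∑ a ∈ I.ch (η u), (if a ∈ I.ch (η u) then S.wt u / (I.dg (η u) : ℝ)
            else S.wt a) * ∑ y, ((I.P η) ^ (s - (if a ∈ I.ch (η u) then S.dep u + 1
            else S.dep a))) a y * f y =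
            S.wt u * ∑ y, ((I.P η) ^ (s - S.dep u)) u y * f y := by
          obtain ⟨m, hm⟩ : ∃ m, s - S.dep u = m + 1 := ⟨s - S.dep u - 1, by omega⟩
          have hm' : s - (S.dep u + 1) = m := by omega
          rw [hm, pow_step, Finset.mul_sum]
          refine Finset.sum_congr rfl fun a ha => ?_
          rw [if_pos ha, if_pos ha, hm']
          ring
        rw [e1, e2]
        rw [Finset.sum_erase_add _ _ hu]
    · have hwt : (nxt S u (η u)).wt = S.wt := by
        unfold nxt
        rw [if_neg hF]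
      have hL : (nxt S u (η u)).L = (S.L.erase u).erase (η u) := by
        unfold nxt
        rw [if_neg hF]
      have hdep : (nxt S u (η u)).dep = S.dep := by
        unfold nxt
        rw [if_neg hF]
      constructor
      · intro a
        rw [hwt]
        exact hw a
      · unfold val
        rw [hL, hwt, hdep]
        refine Finset.sum_le_sum_of_subset_of_nonneg ?_ ?_
        · exact (Finset.erase_subset _ _).trans (Finset.erase_subset _ _)
        · intro a _ _
          exact mul_nonneg (hw a) (hnn _ _)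

theorem val_run {Δ : ℕ} (I : Inst K) (hI : I.Valid Δ) (s : ℕ) (om : ℝ) (η : I.H → I.H)
    (hη : η ∈ I.Om) (f : I.H → ℝ) (hf : ∀ y, 0 ≤ f y) (k : ℕ) :
    ∀ S : I.St, (∀ a, 0 ≤ S.wt a) → val I s η f (run s om η k S) ≤ val I s η f S := by
  induction k with
  | zero =>
    intro S _
    exact le_rfl
  | succ k ih =>
    intro S hw
    obtain ⟨h1, h2⟩ := val_stp I hI s om η hη f hf S hw
    exact (ih _ h1).trans h2

theorem main : KS.S_SK := by
  intro K Δ I hI s om η D F x k f _ hη _ _ _ hf
  have h := val_run I hI s om η hη f hf k (init D F x) (fun a => by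
    show (0 : ℝ) ≤ 1
    norm_num)
  refine h.trans (le_of_eq ?_)
  unfold val
  show ∑ a ∈ ({x} : Finset I.H), (1 : ℝ) * ∑ y, ((I.P η) ^ (s - 0)) a y * f y = _
  rw [Finset.sum_singleton, one_mul, Nat.sub_zero]

end KS.SK_h49
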