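import Pool.Agent.Helper96.KS.Parts

/-!
# KS, part ST: partition of a class according to the partner of `u`
-/

set_option autoImplicit false

open Finset

namespace KS.ST_h49

open scoped Classical

open Inst

theorem main : KS.S_ST := by
  intro K Δ I hI η0 hη0 D hD u hu F g h
  have hmem : ∀ (η : I.H → I.H) (η' : I.H → I.H) (E : Finset I.H), η ∈ I.Cls η' E ↔
      η ∈ I.Om ∧ ∀ x ∈ E, η x = η' x := by
    intro η η' E
    unfold Inst.Cls
    rw [Finset.mem_filter]
  have hOm : ∀ η ∈ I.Om, (∀ x, η (η x) = x) ∧ ∀ x, η x ≠ x := by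
    intro η hη
    unfold Inst.Om at hη
    rw [Finset.mem_filter] at hη
    exact ⟨hη.2.1, hη.2.2.1⟩
  have hmaps : ∀ η ∈ I.Cls η0 D, η u ∈ univ.filter (fun v => v ∉ D ∧ v ≠ u) := by
    intro η hη
    obtain ⟨h1, h2⟩ := (hmem _ _ _).1 hη
    obtain ⟨h3, h4⟩ := hOm η h1
    rw [Finset.mem_filter]
    refine ⟨Finset.mem_univ _, fun hv => hu ?_, h4 u⟩
    have h5 := h2 _ hv
    rw [h3] at h5
    rw [h5]
    exact hD _ hv
  rw [← Finset.sum_fiberwise_of_maps_to hmaps]
  refine Finset.sum_le_sum fun v hv => ?_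
  obtain ⟨-, hvD, hvu⟩ := Finset.mem_filter.1 hv
  rcases Finset.eq_empty_or_nonempty ((I.Cls η0 D).filter fun η => η u = v) with he | ⟨η1, h1⟩
  · rw [he]
    simp
  · rw [Finset.mem_filter] at h1
    obtain ⟨h1a, h1b⟩ := h1
    obtain ⟨h1c, h1d⟩ := (hmem _ _ _).1 h1a
    obtain ⟨h1e, h1f⟩ := hOm η1 h1c
    have heq : ((I.Cls η0 D).filter fun η => η u = v) = I.Cls η1 (insert u (insert v D)) := by
      ext η
      rw [Finset.mem_filter, hmem, hmem]
      constructor
      · rintro ⟨⟨ha, hb⟩, hc⟩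
        refine ⟨ha, fun x hx => ?_⟩
        rw [Finset.mem_insert, Finset.mem_insert] at hx
        rcases hx with rfl | rfl | hx
        · rw [hc, h1b]
        · have e1 : η x = u := by
            rw [← hc]
            exact (hOm η ha).1 u
          have e2 : η1 x = u := by
            rw [← h1b]
            exact h1e u
          rw [e1, e2]
        · rw [hb x hx, h1d x hx]
      · rintro ⟨ha, hb⟩
        refine ⟨⟨ha, fun x hx => ?_⟩, ?_⟩
        · rw [hb x (by simp [hx]), h1d x hx]
        · rw [hb u (by simp), h1b]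
    rw [heq]
    exact h v hvD hvu η1 h1a h1b

end KS.ST_h49
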