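import Pool.Agent.Helper96.KS.Parts

/-!
# KS, part TN: elementary facts on the ideal chain
-/

set_option autoImplicit false

open Finset

namespace KS.TN_h49

open scoped Classical

open Inst

variable {K : ℕ}

theorem T_mono (I : Inst K) (hq : ∀ k v, 0 ≤ I.q k v) (f g : Fin K → ℝ → ℝ)
    (h : ∀ k x, f k x ≤ g k x) : ∀ k x, I.T f k x ≤ I.T g k x := by
  intro k x
  unfold Inst.T
  exact Finset.sum_le_sum fun v _ => mul_le_mul_of_nonneg_left (h _ _) (hq k v)

theorem T_lin (I : Inst K) (f g : Fin K → ℝ → ℝ) (a b : ℝ) :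
    I.T (fun k x => a * f k x + b * g k x) = fun k x => a * I.T f k x + b * I.T g k x := by
  funext k x
  unfold Inst.T
  rw [Finset.mul_sum, Finset.mul_sum, ← Finset.sum_add_distrib]
  exact Finset.sum_congr rfl fun v _ => by ring

theorem T_const (I : Inst K) (hq : ∀ k, ∑ v, I.q k v = 1) (a : ℝ) :
    I.T (fun _ _ => a) = fun _ _ => a := by
  funext k x
  unfold Inst.T
  rw [← Finset.sum_mul, hq k, one_mul]

theorem T_shift (I : Inst K) (f : Fin K → ℝ → ℝ) (x : ℝ) :
    I.T (fun k y => f k (x + y)) = fun k y => I.T f k (x + y) := by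
  funext k y
  unfold Inst.T
  exact Finset.sum_congr rfl fun v _ => by rw [add_assoc]

theorem Tn_zero (I : Inst K) (f : Fin K → ℝ → ℝ) : I.Tn 0 f = f := rfl

theorem Tn_succ (I : Inst K) (n : ℕ) (f : Fin K → ℝ → ℝ) : I.Tn (n + 1) f = I.Tn n (I.T f) :=
  Function.iterate_succ_apply _ _ _

theorem Tn_succ' (I : Inst K) (n : ℕ) (f : Fin K → ℝ → ℝ) : I.Tn (n + 1) f = I.T (I.Tn n f) :=
  Function.iterate_succ_apply' _ _ _

theorem Tn_shift (I : Inst K) (n : ℕ) (f : Fin K → ℝ → ℝ) (x : ℝ) :
    I.Tn n (fun k y => f k (x + y)) = fun k y => I.Tn n f k (x + y) := by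
  induction n with
  | zero => rfl
  | succ n ih => rw [Tn_succ', ih, T_shift, Tn_succ']

theorem dg_bounds {Δ : ℕ} (I : Inst K) (hI : I.Valid Δ) (v : I.H) :
    Real.log 2 ≤ Real.log (I.dg v) ∧ Real.log (I.dg v) ≤ Real.log Δ := by
  have h3 := hI.d3 v.1
  have hΔ := hI.dΔ v.1
  have h1 : 2 ≤ I.dg v := by
    unfold Inst.dg
    omega
  have h2 : I.dg v ≤ Δ := by
    unfold Inst.dg
    omega
  have h1' : (2 : ℝ) ≤ (I.dg v : ℝ) := by exact_mod_cast h1
  have h2' : (I.dg v : ℝ) ≤ (Δ : ℝ) := by exact_mod_cast h2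
  exact ⟨Real.log_le_log (by norm_num) h1', Real.log_le_log (by linarith) h2'⟩

theorem main (hQ : S_Q) : KS.S_TN := by
  intro K Δ I hI
  obtain ⟨_, _, _, _, hq0, _, hq1, _⟩ := hQ K Δ I hI
  refine ⟨?_, ?_, ?_, ?_, ?_, ?_⟩
  · intro n
    induction n with
    | zero =>
      intro f g h
      exact h
    | succ n ih =>
      intro f g h
      rw [Tn_succ, Tn_succ]
      exact ih _ _ (T_mono I hq0 f g h)
  · intro n f g a b
    have h : I.Tn n (fun k x => a * f k x + b * g k x) =
        fun k x => a * I.Tn n f k x + b * I.Tn n g k x := by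
      induction n with
      | zero => rfl
      | succ n ih => rw [Tn_succ', ih, T_lin, Tn_succ', Tn_succ']
    intro k x
    rw [h]
  · intro n a
    have h : I.Tn n (fun _ _ => a) = fun _ _ => a := by
      induction n with
      | zero => rfl
      | succ n ih => rw [Tn_succ', ih, T_const I hq1]
    intro k x
    rw [h]
  · intro m n f
    exact Function.iterate_add_apply _ _ _ _
  · intro n f k x
    rw [Tn_shift]
    simp
  · intro n
    induction n with
    | zero =>
      intro f g k x h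
      exact h k x (by simp) (by simp)
    | succ n ih =>
      intro f g k x h
      rw [Tn_succ', Tn_succ']
      unfold Inst.T
      refine Finset.sum_le_sum fun v _ => mul_le_mul_of_nonneg_left ?_ (hq0 k v)
      obtain ⟨h1, h2⟩ := dg_bounds I hI v
      refine ih f g _ _ fun l y hy1 hy2 => h l y ?_ ?_
      · push_cast
        linarith
      · push_cast
        linarith

end KS.TN_h49
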